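import Pool.Agent.H612.AffMain

/-!
# The affine polynomial projection problem is `∃ℝ`-hard

The problem: given `f, g ∈ ℤ[x₁, …, xₙ]` by their coefficients, are there a real `n × n` matrix `A`
and `b ∈ ℝⁿ` with `f(x) = g(A x + b)`?

For every language `L` in `∃ℝ` there is a polynomial-time computable function `h` mapping each
string `w` to an instance `(n, f, g)` with `f = x₀² x₁²` (a fixed, nonzero polynomial) and `g` a
quartic form, such that `w ∈ L` iff `f` is an affine projection of `g`.

Proof: a system of equations `q_c = 0` (`q_c` homogenised quadratic forms with homogenising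
variable `x₀`) is mapped to `f = x₀² x₁²`, `g = x₀² x₁² - ∑ q_c²`.
-/

namespace Pool.Agent.Results.MP_ca1301_lc.AffineHard

open Pool.Agent.NPC.H612

theorem result : ERHardWithin QuarticInstance AffineProjection := affine_hard

end Pool.Agent.Results.MP_ca1301_lc.AffineHard
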